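import Pool.Agent.H53.GX.Targets2

set_option autoImplicit false

namespace Pool.Agent.H63.GX

open Pool.Agent.H53.GX Pool.Agent.H53.GM Pool.Agent.H68.BP Pool.Agent.H58.SF
open Pool.Agent.H53.GR (So)
open Classical

noncomputable section

/-- `eps` on the types of the sort `e` -/
def epsS {τ : Sig} {N k : ℕ} (F : Set (Str τ (Fin N))) (eps : Ty τ N (Fin k) → Ty τ N (Fin k))
    (e : So N k) (t : Ty τ N (Fin k)) : Ty τ N (Fin k) :=
  if h : ∃ P, Rl F P ∧ rse e.1 P = t then rse e.1 (eps h.choose) else t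

theorem epsS_rse {τ σ : Sig} {N k : ℕ} {F : Set (Str τ (Fin N))}
    {Al : Fin σ.m → Fin τ.m → Prop} {eps : Ty τ N (Fin k) → Ty τ N (Fin k)}
    (hc : Core F Al eps) (e : So N k) (P : Ty τ N (Fin k)) (hP : Rl F P) :
    epsS F eps e (rse e.1 P) = rse e.1 (eps P) := by
  have h : ∃ Q, Rl F Q ∧ rse e.1 Q = rse e.1 P := ⟨P, hP, rfl⟩
  unfold epsS
  rw [dif_pos h]
  exact hc.nat.nat _ h.choose_spec.1 _ hP e.1 h.choose_spec.2

theorem pf_EPS : Pool.Agent.H53.GX.T_EPS := by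
  intro τ σ N k F Al hk eps hc hG
  obtain ⟨G, hG1, hG2⟩ := hG
  refine ⟨fun e w => G e (fun i => epsS F eps e (w i)), ?_, ?_⟩
  · intro l p hp
    cases l with
    | none =>
      have hp' : ∀ i, ∃ P, Rl F P ∧ ∀ e : So N k, p i e = rse e.1 P := hp
      choose P hP1 hP2 using hp'
      have h1 : ∀ i, RS (CS F eps) Al none (fun e => epsS F eps e (p i e)) := by
        intro i
        refine ⟨eps (P i), ⟨hc.nat.mem _ (hP1 i), hc.idem _ (hP1 i)⟩, fun e => ?_⟩
        show epsS F eps e (p i e) = _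
        rw [hP2 i e, epsS_rse hc e _ (hP1 i)]
      obtain ⟨Q, hQ1, hQ2⟩ := hG1 none _ h1
      exact ⟨Q, hQ1.1, hQ2⟩
    | some q =>
      have hp' : ∀ i, ∃ P, Rl F P ∧ hasl Al q.1 q.2 P ∧ ∀ e : So N k, p i e = rse e.1 P := hp
      choose P hP1 hPh hP2 using hp'
      have h1 : ∀ i, RS (CS F eps) Al (some q) (fun e => epsS F eps e (p i e)) := by
        intro i
        refine ⟨eps (P i), ⟨hc.nat.mem _ (hP1 i), hc.idem _ (hP1 i)⟩,
          hc.nat.has _ (hP1 i) _ _ (hPh i), fun e => ?_⟩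
        show epsS F eps e (p i e) = _
        rw [hP2 i e, epsS_rse hc e _ (hP1 i)]
      obtain ⟨Q, hQ1, hQh, hQ2⟩ := hG1 (some q) _ h1
      exact ⟨Q, hQ1.1, hQh, hQ2⟩
  · intro e x y r
    have h : ∀ r : Fin 3, (fun i => epsS F eps e (pat r x y i)) =
        pat r (epsS F eps e x) (epsS F eps e y) := by
      intro r
      funext i
      exact pat_map (epsS F eps e) r x y i
    show G e (fun i => epsS F eps e (pat r x y i)) = G e (fun i => epsS F eps e (pat 0 x y i))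
    rw [h r, h 0]
    exact hG2 e _ _ r

end

end Pool.Agent.H63.GX
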