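import Pool.Agent.H53.GX.Targets
import Pool.Agent.H81.GM.REA

/-!
# Correctness of the reduction: from colourings to assignments
-/

set_option autoImplicit false

namespace Pool.Agent.H63.GX

open Pool.Agent.H68.BP Pool.Agent.H58.SF Pool.Agent.H53.GC Pool.Agent.H53.GR Pool.Agent.H53.GM
open Pool.Agent.H53.GX
open Classical

theorem pf_REAX : Pool.Agent.H53.GX.T_REAX := by
  intro τ σ N F Al hH n 𝕏 M hM hC
  refine ⟨fun j α => ⟨j, tp N (pls M N) α⟩, ?_⟩
  intro s y t hr hyt
  refine ⟨Fin (n + N), inferInstance, pls M N, y, Pool.Agent.H81.GM.val_pls hH hM, ?_, ?_, ?_⟩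
  · cases s with
    | none => trivial
    | some l =>
      obtain ⟨z, hz, rfl⟩ := hr
      obtain ⟨c, hc, h, hMc⟩ := hC l z hz
      exact ⟨c, hc, h, fun i => z (Fin.cast h i), hMc, rfl⟩
  · intro a a' haa
    exact le_antisymm ((hyt a a').2 haa.le) ((hyt a' a).2 haa.ge)
  · intro j α _
    rfl

end Pool.Agent.H63.GX
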